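import Mathlib

set_option autoImplicit false

namespace Pool.Agent.Results.MP_6a28f0_gt.Yes

open Set Filter Topology

universe u

/-- weakly Lindelof -/
def WL (X : Type u) [TopologicalSpace X] : Prop :=
  ∀ 𝒰 : Set (Set X), (∀ U ∈ 𝒰, IsOpen U) → ⋃₀ 𝒰 = univ →
    ∃ 𝒱 ⊆ 𝒰, 𝒱.Countable ∧ Dense (⋃₀ 𝒱)

/-- productively weakly Lindelof -/
def ProdWL (X : Type u) [TopologicalSpace X] : Prop :=
  ∀ (Y : Type u) [TopologicalSpace Y], WL Y → WL (X × Y)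

/-- productively weakly Lindelof, tested only against Tychonoff spaces -/
def ProdWLT (X : Type u) [TopologicalSpace X] : Prop :=
  ∀ (Y : Type u) [TopologicalSpace Y] [T35Space Y], WL Y → WL (X × Y)

/-- weakly Menger -/
def WM (X : Type u) [TopologicalSpace X] : Prop :=
  ∀ 𝒰 : ℕ → Set (Set X), (∀ n, ∀ U ∈ 𝒰 n, IsOpen U) → (∀ n, ⋃₀ 𝒰 n = univ) →
    ∃ 𝒱 : ℕ → Set (Set X), (∀ n, 𝒱 n ⊆ 𝒰 n ∧ (𝒱 n).Finite) ∧ Dense (⋃ n, ⋃₀ 𝒱 n)

/-- weakly Scheepers -/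
def WS (X : Type u) [TopologicalSpace X] : Prop :=
  ∀ 𝒰 : ℕ → Set (Set X), (∀ n, ∀ U ∈ 𝒰 n, IsOpen U) → (∀ n, ⋃₀ 𝒰 n = univ) →
    ∃ 𝒱 : ℕ → Set (Set X), (∀ n, 𝒱 n ⊆ 𝒰 n ∧ (𝒱 n).Finite) ∧
      ∀ ℱ : Set (Set X), ℱ.Finite → (∀ U ∈ ℱ, IsOpen U ∧ U.Nonempty) →
        {n | ∀ U ∈ ℱ, (U ∩ ⋃₀ 𝒱 n).Nonempty}.Infinite

section
variable {Z : Type u} (𝒰 : ℕ → Set (Set Z))

abbrev D : Type u := {z : ℕ → Set (Set Z) × ℕ // ∀ n, (z n).1 ⊆ 𝒰 n ∧ (z n).1.Finite}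
def G (n : ℕ) (F : D 𝒰) : Set (D 𝒰) := {z | (F.1 n).1 ⊆ (z.1 n).1 ∧ (F.1 n).2 < (z.1 n).2}
def N (F : D 𝒰) : Set (D 𝒰) := {z | ∀ n, z ∉ G 𝒰 n F}
def S : Set (Ultrafilter (D 𝒰)) := {u | (∃ F, N 𝒰 F ∈ u) ∨ ∃ n, ∀ F, G 𝒰 n F ∈ u}
instance : Nonempty (D 𝒰) := ⟨⟨fun _ => (∅, 0), fun _ => ⟨empty_subset _, finite_empty⟩⟩⟩

lemma pure_mem (z : D 𝒰) : pure z ∈ S 𝒰 := .inl ⟨z, fun _ h => lt_irrefl _ h.2⟩

lemma fin_cov {𝒪 : Set (Set (S 𝒰))} (o : ∀ U ∈ 𝒪, IsOpen U) (c : ⋃₀ 𝒪 = univ)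
    {K : Set (Ultrafilter (D 𝒰))} (k : IsClosed K) (s : K ⊆ S 𝒰) :
    ∃ T ⊆ 𝒪, T.Finite ∧ ∃ O, IsOpen O ∧ K ⊆ O ∧ Subtype.val ⁻¹' O ⊆ ⋃₀ T := by
  have e : IsCompact (Subtype.val ⁻¹' K : Set (S 𝒰)) := by
    rw [Subtype.isCompact_iff, Subtype.image_preimage_coe, inter_eq_right.2 s]
    exact k.isCompact
  obtain ⟨T, t1, t2, t3⟩ := e.elim_finite_subcover_image (c := id) (b := 𝒪) o
    (fun x _ => by obtain ⟨U, u1, u2⟩ := c.ge (mem_univ x); exact mem_biUnion u1 u2)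
  obtain ⟨O, o1, o2⟩ := isOpen_induced_iff.1 (isOpen_sUnion fun U hU => o U (t1 hU))
  refine ⟨T, t1, t2, O, o1, fun u hu => ?_, o2.le⟩
  have : (⟨u, s hu⟩ : S 𝒰) ∈ ⋃₀ T := by rw [sUnion_eq_biUnion]; exact t3 hu
  rw [← o2] at this
  exact this

lemma wl_S : WL (S 𝒰) := by
  intro 𝒪 o c
  have a : ∀ n, ∃ T ⊆ 𝒪, T.Finite ∧ ∃ F, Subtype.val ⁻¹' {u | G 𝒰 n F ∈ u} ⊆ ⋃₀ T := fun n => by
    obtain ⟨T, t1, t2, O, o1, o2, o3⟩ := fin_cov 𝒰 o c (K := ⋂ F, {u | G 𝒰 n F ∈ u})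
      (isClosed_iInter fun F => ultrafilter_isClosed_basic _) fun u hu => .inr ⟨n, mem_iInter.1 hu⟩
    obtain ⟨F, hF⟩ := exists_subset_nhds_of_compactSpace (V := fun F => {u : Ultrafilter (D 𝒰) | G 𝒰 n F ∈ u})
      (fun A B => ⟨⟨fun m => ((A.1 m).1 ∪ (B.1 m).1, max (A.1 m).2 (B.1 m).2), fun m =>
        ⟨union_subset (A.2 m).1 (B.2 m).1, (A.2 m).2.union (B.2 m).2⟩⟩,
        fun u hu => mem_of_superset (f := (u : Filter (D 𝒰))) hu fun z hz =>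
          ⟨subset_union_left.trans hz.1, (le_max_left _ _).trans_lt hz.2⟩,
        fun u hu => mem_of_superset (f := (u : Filter (D 𝒰))) hu fun z hz =>
          ⟨subset_union_right.trans hz.1, (le_max_right _ _).trans_lt hz.2⟩⟩)
      (fun F => ultrafilter_isClosed_basic _) fun x hx => o1.mem_nhds (o2 hx)
    exact ⟨T, t1, t2, F, (preimage_mono hF).trans o3⟩
  choose T t1 t2 F hF using a
  obtain ⟨T', s1, s2, O, -, o2, o3⟩ := fin_cov 𝒰 o c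
    (K := {u | N 𝒰 ⟨fun n => (F n).1 n, fun n => (F n).2 n⟩ ∈ u})
    (ultrafilter_isClosed_basic _) fun u hu => .inl ⟨_, hu⟩
  refine ⟨T' ∪ ⋃ n, T n, union_subset s1 (iUnion_subset t1),
    s2.countable.union (countable_iUnion fun n => (t2 n).countable), Subtype.dense_iff.2 fun u _ => ?_⟩
  refine closure_mono ?_ (denseRange_pure u)
  rintro _ ⟨z, rfl⟩
  refine ⟨⟨pure z, pure_mem 𝒰 z⟩, ?_, rfl⟩
  by_cases e : z ∈ N 𝒰 ⟨fun n => (F n).1 n, fun n => (F n).2 n⟩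
  · exact sUnion_mono subset_union_left (o3 (o2 e))
  · obtain ⟨n, hn⟩ := not_forall.1 e
    exact sUnion_mono ((subset_iUnion T n).trans subset_union_right) (hF n (not_not.1 hn))
end

lemma core {Z : Type u} [TopologicalSpace Z] (H : ProdWLT Z) : WM Z := by
  intro 𝒰 o c
  by_contra hn
  have bo : ∀ A : Set (D 𝒰), IsOpen (Subtype.val ⁻¹' {u | A ∈ u} : Set (S 𝒰)) := fun A =>
    (ultrafilter_isOpen_basic A).preimage continuous_subtype_val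
  let B : D 𝒰 → Set (Z × S 𝒰) := fun F => univ ×ˢ (Subtype.val ⁻¹' {u | N 𝒰 F ∈ u})
  obtain ⟨𝒱, v1, v2, v3⟩ := H (S 𝒰) (wl_S 𝒰)
    ({V | ∃ n, ∃ U ∈ 𝒰 n, V = U ×ˢ (Subtype.val ⁻¹' {u | {z : D 𝒰 | U ∈ (z.1 n).1} ∈ u})} ∪ range B)
    (by
      rintro _ (⟨n, U, hU, rfl⟩ | ⟨F, rfl⟩)
      · exact (o n U hU).prod (bo _)
      · exact isOpen_univ.prod (bo _))
    (by
      refine eq_univ_of_forall fun ⟨x, u, hu⟩ => ?_
      rcases id hu with ⟨F, hF⟩ | ⟨n, h⟩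
      · exact ⟨_, .inr ⟨F, rfl⟩, trivial, hF⟩
      · obtain ⟨U, u1, u2⟩ := (c n).ge (mem_univ x)
        refine ⟨_, .inl ⟨n, U, u1, rfl⟩, u2, mem_of_superset (f := (u : Filter (D 𝒰)))
          (h ⟨fun m => ({U} ∩ 𝒰 m, 0), fun m => ⟨inter_subset_right, (finite_singleton U).inter_of_left _⟩⟩)
          fun z hz => hz.1 ⟨rfl, u1⟩⟩)
  obtain ⟨f, hf⟩ := countable_iff_exists_subset_range.1 v2
  have a : ∀ j, ∃ F, f j ∈ range B → B F = f j := fun j => by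
    by_cases e : f j ∈ range B
    · exact e.imp fun _ h _ => h
    · exact ⟨Classical.arbitrary _, fun h => (e h).elim⟩
  choose e he using a
  let z : D 𝒰 := ⟨fun n => (((e n).1 n).1, ((e n).1 n).2 + 1), fun n => (e n).2 n⟩
  refine hn ⟨fun n => (z.1 n).1, z.2, dense_iff_inter_open.2 fun O o1 ⟨x, hx⟩ => ?_⟩
  obtain ⟨⟨y, u⟩, ⟨y1, y2⟩, V, hV, y3⟩ := v3.inter_open_nonempty _ (o1.prod (bo {z}))
    ⟨(x, ⟨pure z, pure_mem 𝒰 z⟩), hx, mem_singleton z⟩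
  have b : ∀ A ∈ u.1, z ∈ A := fun A hA => by
    obtain ⟨w, w1, w2⟩ := u.1.nonempty_of_mem (inter_mem (f := (u.1 : Filter (D 𝒰))) y2 hA)
    exact mem_singleton_iff.1 w1 ▸ w2
  rcases v1 hV with ⟨n, U, -, rfl⟩ | h
  · exact ⟨y, y1, mem_iUnion.2 ⟨n, U, b _ y3.2, y3.1⟩⟩
  · obtain ⟨j, rfl⟩ := hf hV
    rw [← he j h] at y3
    exact (b _ y3.2 j ⟨Subset.rfl, Nat.lt_succ_self _⟩).elim

lemma WL.image {A B : Type u} [TopologicalSpace A] [TopologicalSpace B] {f : A → B}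
    (c : Continuous f) (s : Function.Surjective f) (h : WL A) : WL B := by
  intro 𝒰 o e
  obtain ⟨𝒱, v1, v2, v3⟩ := h ((f ⁻¹' ·) '' 𝒰) (by rintro _ ⟨U, hU, rfl⟩; exact (o U hU).preimage c)
    (eq_univ_of_forall fun x => by
      obtain ⟨U, u1, u2⟩ := e.ge (mem_univ (f x))
      exact ⟨_, ⟨U, u1, rfl⟩, u2⟩)
  have := v2.to_subtype
  choose g g1 g2 using fun V : 𝒱 => v1 V.2
  refine ⟨range g, range_subset_iff.2 g1, countable_range g, (s.denseRange.dense_image c v3).mono ?_⟩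
  rintro _ ⟨x, ⟨V, u1, u2⟩, rfl⟩
  exact ⟨_, ⟨⟨V, u1⟩, rfl⟩, (g2 ⟨V, u1⟩).ge u2⟩

lemma step {X Y : Type u} [TopologicalSpace X] [TopologicalSpace Y] {k : ℕ}
    (h : WL (X × (Fin k → X) × Y)) : WL ((Fin (k + 1) → X) × Y) :=
  h.image (f := fun p => (Fin.cons p.1 p.2.1, p.2.2))
    ((Continuous.finCons (A := fun _ => X) continuous_fst continuous_snd.fst).prodMk continuous_snd.snd)
    fun p => ⟨(p.1 0, Fin.tail p.1, p.2), by simp⟩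

lemma base {X Y : Type u} [TopologicalSpace X] [TopologicalSpace Y] (h : WL Y) :
    WL ((Fin 0 → X) × Y) :=
  h.image (f := fun y => (default, y)) (continuous_const.prodMk continuous_id)
    fun p => ⟨p.2, Prod.ext (Subsingleton.elim _ _) rfl⟩

lemma ws {X : Type u} [TopologicalSpace X] (H : ∀ k, WM (Fin k → X)) : WS X := by
  intro 𝒰 o c
  have a : ∀ k, ∃ V : ℕ → Set (Set X), (∀ m, V m ⊆ 𝒰 (Nat.pair k m) ∧ (V m).Finite) ∧
      Dense (⋃ m, univ.pi fun _ : Fin k => ⋃₀ V m) := fun k => by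
    obtain ⟨T, t1, t2⟩ := H k
      (fun m => (fun V => univ.pi fun _ => ⋃₀ V) '' {V | V ⊆ 𝒰 (Nat.pair k m) ∧ V.Finite})
      (by
        rintro m _ ⟨V, hV, rfl⟩
        exact isOpen_set_pi finite_univ fun _ _ => isOpen_sUnion fun U hU => o _ U (hV.1 hU))
      fun m => eq_univ_of_forall fun x => by
        choose U u1 u2 using fun i => (c (Nat.pair k m)).ge (mem_univ (x i))
        exact ⟨_, ⟨range U, ⟨range_subset_iff.2 u1, finite_range U⟩, rfl⟩, fun i _ => ⟨_, ⟨i, rfl⟩, u2 i⟩⟩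
    choose W w1 w2 w3 using fun m => (t1 m).2.exists_subset_finite_image_eq (t1 m).1
    refine ⟨fun m => ⋃₀ W m, fun m => ⟨sUnion_subset fun V hV => (w1 m hV).1,
      (w2 m).sUnion fun V hV => (w1 m hV).2⟩, t2.mono (iUnion_mono fun m => ?_)⟩
    rw [← w3 m]
    rintro x ⟨_, ⟨V, hV, rfl⟩, hx⟩ i hi
    exact sUnion_mono (subset_sUnion_of_mem hV) (hx i hi)
  choose V v1 v2 using a
  refine ⟨fun n => V n.unpair.1 n.unpair.2, fun n => ?_, fun ℱ f1 f2 => ?_⟩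
  · simpa using v1 n.unpair.1 n.unpair.2
  rcases ℱ.eq_empty_or_nonempty with rfl | ne
  · simpa using infinite_univ
  have := f1.to_subtype
  have := ne.to_subtype
  obtain ⟨r, ⟨e⟩⟩ := Finite.exists_equiv_fin ℱ
  refine infinite_of_forall_exists_gt fun a => ?_
  obtain ⟨g, s⟩ : ∃ g : Fin (max r (a + 1)) → ℱ, Function.Surjective g :=
    ⟨_, Function.invFun_surjective ((Fin.castLE_injective (le_max_left r (a + 1))).comp e.injective)⟩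
  obtain ⟨x, x1, x2⟩ := (v2 (max r (a + 1))).inter_open_nonempty (univ.pi fun i => (g i).1)
    (isOpen_set_pi finite_univ fun i _ => (f2 _ (g i).2).1) (univ_pi_nonempty_iff.2 fun i => (f2 _ (g i).2).2)
  obtain ⟨m, hm⟩ := mem_iUnion.1 x2
  refine ⟨Nat.pair (max r (a + 1)) m, fun U hU => ?_, (le_max_right r _).trans (Nat.left_le_pair _ _)⟩
  obtain ⟨i, hi⟩ := s ⟨U, hU⟩
  refine ⟨x i, ?_, by simpa using hm i trivial⟩
  have : x i ∈ (g i).1 := x1 i trivial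
  rwa [hi] at this

theorem result (X : Type u) [TopologicalSpace X] :
    (ProdWL X → WS X ∧ WM X) ∧ (ProdWLT X → WM X) ∧ (T35Space X → ProdWLT X → WS X) := by
  refine ⟨fun h => ⟨ws fun k => core fun Y _ _ hY => ?_, core fun Y _ _ hY => h Y hY⟩, core,
    fun _ h => ws fun k => core fun Y _ _ hY => ?_⟩
  · induction k with
    | zero => exact base hY
    | succ k ih => exact step (h _ ih)
  · induction k with
    | zero => exact base hY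
    | succ k ih => exact step (h _ ih)

end Pool.Agent.Results.MP_6a28f0_gt.Yes
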